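import Pool.Agent.Q295.PCR.All

set_option autoImplicit false

namespace Pool.Agent.Results.MP_ee92c9_pr.UniformRatio

open MeasureTheory Set
open scoped ENNReal NNReal

/-- The optimal transport cost `C*_{c_q}(P, Q)` for the cost `|x-y|^q`: the infimum of
`∫ |x-y|^q dγ` over all joint laws `γ` with marginals `P` and `Q`. -/
noncomputable def optCost (q : ℝ) (P Q : Measure ℝ) : ℝ≥0∞ :=
  ⨅ (γ : Measure (ℝ × ℝ)) (_ : γ.map Prod.fst = P ∧ γ.map Prod.snd = Q),
    ∫⁻ z, ENNReal.ofReal (|z.1 - z.2| ^ q) ∂γ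

/-- A coupling of the set of all Borel probability measures on the line: a family of Lebesgue
measurable functions `X P` on `[0,1]` (with Lebesgue measure) such that `X P` has law `P`. -/
def IsCoupling (X : Measure ℝ → ℝ → ℝ) : Prop :=
  ∀ P : Measure ℝ, IsProbabilityMeasure P →
    AEMeasurable (X P) (volume.restrict (Icc (0 : ℝ) 1)) ∧
      Measure.map (X P) (volume.restrict (Icc (0 : ℝ) 1)) = P

/-- The pairwise coupling ratio of a coupling: the infimum of the real `r ≥ 1` with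
`E |X_P - X_Q|^q ≤ r C*(P, Q)` for all `P`, `Q` (`⊤` if there is none). -/
noncomputable def ratio (q : ℝ) (X : Measure ℝ → ℝ → ℝ) : ℝ≥0∞ :=
  ⨅ (r : ℝ≥0) (_ : 1 ≤ r ∧ ∀ P Q : Measure ℝ, IsProbabilityMeasure P → IsProbabilityMeasure Q →
    ∫⁻ ω in Icc (0 : ℝ) 1, ENNReal.ofReal (|X P ω - X Q ω| ^ q) ≤ r * optCost q P Q), (r : ℝ≥0∞)

/-- The optimal pairwise coupling ratio `r*_{c_q}(P(ℝ))`. -/
noncomputable def optRatio (q : ℝ) : ℝ≥0∞ := ⨅ (X : Measure ℝ → ℝ → ℝ) (_ : IsCoupling X), ratio q X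

/-- The optimal pairwise coupling ratio on the line is at most `50000` for all `q ∈ [1/2, 1)`; so,
if `C` bounds it for the other `q > 0` (known bounds: `10.55 / (1 - q) ≤ 21.1` for `q < 1/2` and
`1` for `q ≥ 1`), then it is bounded by one constant for all `q > 0`. -/
theorem result :
    (∀ q : ℝ, 1 / 2 ≤ q → q < 1 → optRatio q ≤ 50000) ∧
    (∀ C : ℝ≥0, (∀ q : ℝ, 0 < q → q < 1 / 2 → optRatio q ≤ C) → (∀ q : ℝ, 1 ≤ q → optRatio q ≤ C) →
      ∃ K : ℝ≥0, ∀ q : ℝ, 0 < q → optRatio q ≤ K) := by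
  have main : ∀ q : ℝ, 1 / 2 ≤ q → q < 1 → optRatio q ≤ 50000 := by
    intro q hq1 hq2
    obtain ⟨X, hX, hc⟩ := Pool.Agent.Q295.PCR.final Pool.Agent.Q295.PCR.tPar Pool.Agent.Q295.PCR.tIoo Pool.Agent.Q295.PCR.tLimLaw Pool.Agent.Q295.PCR.tCost Pool.Agent.Q295.PCR.tAvg Pool.Agent.Q295.PCR.tXLMeas Pool.Agent.Q295.PCR.tSpace q hq1 hq2
    have h1 : IsCoupling X := fun P hP => ⟨(hX P hP).1.aemeasurable, (hX P hP).2⟩
    refine (iInf₂_le X h1).trans ?_
    refine (iInf₂_le (50000 : ℝ≥0) ⟨by norm_num, ?_⟩).trans (by norm_num)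
    intro P Q hP hQ
    unfold optCost
    rw [show ((50000 : ℝ≥0) : ℝ≥0∞) = 50000 by norm_num]
    rw [ENNReal.mul_iInf_of_ne (by norm_num) (by norm_num)]
    refine le_iInf fun γ => ?_
    rw [ENNReal.mul_iInf_of_ne (by norm_num) (by norm_num)]
    exact le_iInf fun h => hc P Q hP hQ γ h.1 h.2
  refine ⟨main, fun C h1 h2 => ⟨max C 50000, fun q hq => ?_⟩⟩
  rcases lt_or_ge q (1 / 2) with h | h
  · exact (h1 q hq h).trans (by exact_mod_cast le_max_left _ _)
  · rcases lt_or_ge q 1 with h' | h'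
    · refine (main q h h').trans ?_
      have : (50000 : ℝ≥0) ≤ max C 50000 := le_max_right _ _
      exact_mod_cast this
    · exact (h2 q h').trans (by exact_mod_cast le_max_left _ _)

end Pool.Agent.Results.MP_ee92c9_pr.UniformRatio
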